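import Pool.Agent.MP_3ad207_lc.H6.HubSpec

/-! Two members on the same side of an item, and the container of the deleted set. -/

set_option autoImplicit false

namespace Pool.Agent.Ehf

namespace H70

variable {V : Type*} {G : SimpleGraph V} {S I : Set V}

theorem far_side (h : Setup G S I) {c x : V} (hc : c ∈ S \ I) (hx : x ∈ HH S I \ {c}) :
    ∃ F, Conn G F ∧ Anti G (comp G (HH S I \ {c}) x) F ∧
      comp G (HH S I \ {c}) x ∪ F = HH S I \ {c} := by
  obtain ⟨a, b, -, ha, hb, ea, eb, -, hA, hU⟩ := h.white_split hc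
  rcases hU.ge hx with e | e
  · rw [comp_eq_of_mem e]
    exact ⟨_, conn_comp (Setup.nbr_mem_diff (black_mem_HH hb) eb), hA, hU⟩
  · rw [comp_eq_of_mem e]
    exact ⟨_, conn_comp (Setup.nbr_mem_diff (black_mem_HH ha) ea), hA.symm,
      (Set.union_comm _ _).trans hU⟩

theorem notMem_cN {z y : V} (hz : z ∉ HH S I) (hy : y ∈ HH S I) (e : ¬ G.Adj z y) :
    y ∉ cN G {z} := by
  rw [mem_cN_singleton]
  rintro (a | a)
  · exact hz (a ▸ hy)
  · exact e a.symm

theorem can_nbr (h : Setup G S I) (C : CanSys G S) {q : V} (hq : q ∈ HH S I) :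
    C.Can 3 (cN G {q} \ HH S I) := by
  rcases hq with hq | hq
  · rw [h.black_cN_diff hq]
    exact C.diff (C.diff (C.nbhd (C.single q)) (C.mono C.white (by omega)))
      (C.mono (C.single q) (by omega))
  · obtain ⟨a, b, -, ha, hb, -, -, hab⟩ := h.white_nbrs hq
    have e : cN G {q} \ HH S I = cN G {q} \ (({q} ∪ {a}) ∪ {b}) := by
      ext y
      constructor
      · rintro ⟨h1, h2⟩
        refine ⟨h1, ?_⟩
        rintro ((rfl | rfl) | rfl)
        · exact h2 (white_mem_HH hq)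
        · exact h2 (black_mem_HH ha)
        · exact h2 (black_mem_HH hb)
      · rintro ⟨h1, h2⟩
        refine ⟨h1, fun h3 => h2 ?_⟩
        rcases mem_cN_singleton.1 h1 with e | e
        · exact Or.inl (Or.inl e)
        · rcases hab y h3 e.symm with e' | e'
          · exact Or.inl (Or.inr e')
          · exact Or.inr e'
    rw [e]
    exact C.diff (C.mono (C.nbhd (C.single q)) (by omega))
      (C.union (C.union (C.single q) (C.single a)) (C.mono (C.single b) (by omega)))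

end H70

open H70

theorem sameSideStmt : SameSideStmt := by
  intro V _ G S I h c hc x' x'' hx' hx''
  have cH := white_mem_HH hc
  have x'H := hx'.1
  have x''H := (comp_subset _ _ hx'').1
  obtain ⟨F, cF, aF, uF⟩ := far_side h hc hx'
  have cK : Conn G (comp G (HH S I \ {c}) x') := conn_comp hx'
  have KH : comp G (HH S I \ {c}) x' ⊆ HH S I := fun y hy => (comp_subset _ _ hy).1
  obtain ⟨m, m1, m2, m3, a1, -, a3⟩ := h.exists_median cH x'H x''H
  have mK := h.hseg_subset cK KH (mem_comp_self hx') hx'' m3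
  have mH := KH mK
  obtain ⟨gn, pg⟩ := h.hpath_hlen_of_mem cH x''H m2
  have g0 : 0 < h.hlen c m := h.hlen_pos cH mH fun e => (comp_subset _ _ mK).2 e.symm
  have ip := h.hpath_isIP cH x''H
  have p0 := h.hpath_zero cH x''H
  have pn := h.hpath_hlen cH x''H
  have pH : ∀ k, k ≤ h.hlen c x'' → h.hpath c x'' k ∈ HH S I := fun k hk => h.hpath_mem cH x''H hk
  have s1 := (h.hpath_sub_left cH x''H gn).2.2
  have s2 := (h.hpath_sub_right cH x''H gn).2.2
  have pK : seg (h.hpath c x'') 1 (h.hlen c x'') ⊆ comp G (HH S I \ {c}) x' := by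
    rw [← h.hseg_diff_left cH x''H, ← comp_eq_of_mem hx'']
    exact h.hseg_diff_subset_comp cH x''H
  rw [pg] at s1 s2
  rw [h.hseg_symm cH mH, s1] at a1
  rw [s2] at a3
  have sp := (h.hseg_split cH x'H m1).2.1
  rw [s1] at sp
  generalize h.hpath c x'' = p at *
  generalize h.hlen c x'' = n at *
  generalize h.hlen c m = g at *
  have ZK : h.hseg m x' ⊆ comp G (HH S I \ {c}) x' := h.hseg_subset cK KH mK (mem_comp_self hx')
  have mg : ∀ {i j : ℕ}, i ≤ g → g ≤ j → m ∈ seg p i j := fun a b => pg ▸ apply_mem_seg a b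
  refine ⟨p (g - 1), pH _ (by omega), p g, pH _ gn, p (min (g + 1) n), pH _ (by omega),
    seg p (g + 2) n, {q | Sees G q (seg p 1 (g - 2)) ∧ Sees G q F ∧ Sees G q (h.hseg m x')},
    ?_, (seg_mono (by omega) le_rfl).trans pK, ?_, ?_, ?_⟩
  · rintro ⟨y, k, k1, k2, -⟩
    exact ip.conn_seg (by omega) le_rfl
  · have b1 : Anti G (seg p (g + 2) n) (seg p 0 g) := (ip.anti_seg (by omega) le_rfl).symm
    intro y hy w hw
    by_cases e : w ∈ seg p 0 g
    · exact b1 y hy w e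
    · refine a3.symm y ⟨seg_mono (by omega) le_rfl hy, fun e' => ?_⟩ w
        ⟨(sp.le hw.1).resolve_left e, fun e' => e (e' ▸ mg (by omega) le_rfl)⟩
      exact b1.notMem hy (e' ▸ mg (by omega) le_rfl)
  · rintro u ⟨u1, u2, u3⟩ v ⟨v1, v2, v3⟩ hne
    by_contra hna
    have g3 : 1 ≤ g - 2 := by
      obtain ⟨y, ⟨k, k1, k2, -⟩, -⟩ := u1
      omega
    have b1 : Anti G (seg p 1 (g - 2)) (seg p g g) := ip.anti_seg (by omega) gn
    refine h.ehf.theta hne hna (ip.conn_seg g3 (by omega)) cF (h.conn_hseg mH x'H)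
      (aF.mono ((seg_mono le_rfl (by omega)).trans pK) le_rfl) ?_ (aF.mono ZK le_rfl).symm
      (Or.inr u1) (Or.inr v1) (Or.inr u2) (Or.inr v2) (Or.inr u3) (Or.inr v3)
    intro y hy w hw
    by_cases e : w = m
    · exact b1 y hy w (e ▸ mg le_rfl le_rfl)
    · exact a1 y ⟨seg_mono (by omega) (by omega) hy,
        fun e' => b1.notMem hy (e' ▸ mg le_rfl le_rfl)⟩ w ⟨hw, e⟩
  · intro z hz hz' _
    by_contra hcon
    simp only [not_or] at hcon
    obtain ⟨n1, n2, n3, n4, n5⟩ := hcon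
    obtain ⟨f, N, i, sc, i0, iN, fi⟩ := hz.2.1
    have miss : ∀ k, g - 1 ≤ k → k ≤ n → ¬ G.Adj z (p k) := by
      intro k k1 k2 e
      rcases (by omega : k = g - 1 ∨ k = g ∨ k = min (g + 1) n ∨ g + 2 ≤ k) with a | a | a | a
      · exact n1 (a ▸ e)
      · exact n2 (a ▸ e)
      · exact n3 (a ▸ e)
      · exact n4 ⟨_, apply_mem_seg a k2, e⟩
    refine n5 ⟨?_, ?_, ?_⟩
    · by_contra hs
      refine hz.2.2.2.1 ((ip.conn_seg (Nat.zero_le n) le_rfl).subset_comp_of_mem
        (seg_subset (X := (cN G {z})ᶜ) fun k _ k2 => notMem_cN hz.1 (pH k k2) fun e => ?_)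
        (p0 ▸ apply_mem_seg le_rfl (Nat.zero_le n)) (pn ▸ apply_mem_seg (Nat.zero_le n) le_rfl))
      rcases (by omega : k = 0 ∨ (1 ≤ k ∧ k ≤ g - 2) ∨ g - 1 ≤ k) with a | a | a
      · exact sc.inner i i0 iN (by rwa [a, p0, ← fi] at e)
      · exact hs ⟨_, apply_mem_seg a.1 a.2, e⟩
      · exact miss k a k2 e
    · have e0 : f 0 ∈ HH S I \ {c} :=
        ⟨sc.mem 0 (by omega), fi ▸ sc.ip.ne (by omega) iN.le (by omega)⟩
      have eN : f N ∈ HH S I \ {c} := ⟨sc.mem N le_rfl, fi ▸ sc.ip.ne le_rfl iN.le (by omega)⟩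
      rcases uF.ge e0 with b0 | b0
      · rcases uF.ge eN with bN | bN
        · have := h.hseg_subset cK KH b0 bN
          rw [(h.hpath_eq sc.ip sc.mem rfl rfl).2.2] at this
          exact ((comp_subset _ _ (this (apply_mem_seg i0.le iN.le))).2 fi).elim
        · exact ⟨_, bN, sc.right⟩
      · exact ⟨_, b0, sc.left⟩
    · by_contra hs
      refine hz' (HubP.move_kap hz (((h.conn_hseg mH x'H).un (ip.conn_seg gn le_rfl)
        (Touch.of_mem (h.left_mem_hseg mH x'H) (mg le_rfl gn))).subset_comp_of_mem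
        (U := HH S I \ cN G {z}) (Set.union_subset (fun y hy => ?_) (seg_subset fun k k1 k2 => ?_))
        (Or.inr (pn ▸ apply_mem_seg gn le_rfl)) (Or.inl (h.right_mem_hseg mH x'H))))
      · exact ⟨KH (ZK hy), notMem_cN hz.1 (KH (ZK hy)) fun e => hs ⟨y, hy, e⟩⟩
      · exact ⟨pH k k2, notMem_cN hz.1 (pH k k2) (miss k (by omega) k2)⟩

theorem woCover (hub : HubCoverStmt) : WoCoverStmt := by
  classical
  intro V _ G S I h C D a hD ha
  obtain ⟨U, hU, cU⟩ : ∃ U : Finset V, clo G S I D ⊆ U ∧ U.card ≤ a + 4 * a * a := by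
    refine ⟨D ∪ ((Finset.range 4 ×ˢ D) ×ˢ D).image fun t => h.hpath t.1.2 t.2 t.1.1, ?_, ?_⟩
    · rintro u ⟨-, e | ⟨g, n, j, h1, h2, h3, h4, -, h6, h7, h8⟩⟩
      · exact Finset.mem_coe.2 (Finset.mem_union_left _ e)
      · refine Finset.mem_coe.2 (Finset.mem_union_right _ (Finset.mem_image.2
          ⟨((j, g 0), g n), ?_, ((h.hpath_eq h1 h2 rfl rfl).2.1 j h6.le).trans h8⟩))
        simp only [Finset.mem_product, Finset.mem_range]
        exact ⟨⟨by omega, h3⟩, h4⟩
    · refine (Finset.card_union_le _ _).trans (add_le_add ha (Finset.card_image_le.trans ?_))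
      rw [Finset.card_product, Finset.card_product, Finset.card_range]
      exact Nat.mul_le_mul (Nat.mul_le_mul_left 4 ha) ha
  refine ⟨⟨U, hU, cU⟩, ?_⟩
  have key : ∀ t : V × V, ∃ X, C.Can 9 X ∧
      (t.1 ∈ HH S I → t.2 ∈ HH S I → HubP G S I t.1 t.2 ⊆ X) ∧ Disjoint X (HH S I) := by
    intro t
    by_cases ht : t.1 ∈ HH S I ∧ t.2 ∈ HH S I
    · obtain ⟨X, h1, h2, h3⟩ := hub V G S I h C _ ht.1 _ ht.2
      exact ⟨X, h1, fun _ _ => h2, h3⟩
    · exact ⟨∅, C.mono C.empty (by omega), fun h1 h2 => (ht ⟨h1, h2⟩).elim, Set.empty_disjoint _⟩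
  choose X hX1 hX2 hX3 using key
  have c1 := C.biUnion D (F := fun q => cN G {q} \ HH S I) fun q hq => can_nbr h C (hD hq)
  have c2 := C.biUnion (U ×ˢ D) (F := X) fun t _ => hX1 t
  have c3 : (U ×ˢ D).card ≤ (a + 4 * a * a) * a := by
    rw [Finset.card_product]
    exact Nat.mul_le_mul cU ha
  refine ⟨_, C.mono (C.union_max c1 c2) (by omega), ?_, ?_⟩
  · rintro z ⟨hz, ⟨q, hq, e⟩ | ⟨u, hu, x, hx, e⟩⟩
    · exact Or.inl (Set.mem_biUnion hq ⟨mem_cN_singleton.2 (Or.inr e), hz⟩)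
    · exact Or.inr (Set.mem_biUnion (x := (u, x))
        (Finset.mem_coe.2 (Finset.mem_product.2 ⟨hU hu, hx⟩))
        (hX2 (u, x) (white_mem_HH hu.1) (hD hx) e))
  · rw [Set.disjoint_left]
    rintro z (hz | hz) hH
    · obtain ⟨q, -, e⟩ := Set.mem_iUnion₂.1 hz
      exact e.2 hH
    · obtain ⟨t, -, e⟩ := Set.mem_iUnion₂.1 hz
      exact Set.disjoint_left.1 (hX3 t) e hH

end Pool.Agent.Ehf
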